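import Pool.Agent.H210R2.PinF

set_option autoImplicit false

namespace Pool.Agent.Results.MP_c4588b_lc.FiveThirds

/-- The real-valued instance `a` (with the periods `a i`) is schedulable: there is a map `S` from
the integers to the tasks such that every window of `⌈l * a i⌉` consecutive integers contains at
least `l` times assigned to the task `i`, for all `i` and `l`. -/
def Schedulable {k : ℕ} (a : Fin k → ℝ) : Prop :=
  ∃ S : ℤ → Fin k, ∀ (i : Fin k) (l : ℕ) (m : ℤ),
    l ≤ ((Finset.Ico m (m + ⌈(l : ℝ) * a i⌉)).filter (fun t => S t = i)).card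

/-- Every real-valued instance of density at most `5/6` with a period at most `5/3` is
schedulable. -/
theorem result :
    ∀ k : ℕ, 0 < k → ∀ a : Fin k → ℝ, (∀ i, 1 ≤ a i) → (∑ i, 1 / a i) ≤ 5 / 6 →
      (∃ j, a j ≤ 5 / 3) → Schedulable a := by
  intro k hk a ha hD hj
  obtain ⟨j, hj⟩ := hj
  exact Pool.Agent.H210R2.Pin.five_thirds_all hk a ha j hj hD

end Pool.Agent.Results.MP_c4588b_lc.FiveThirds
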