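import Pool.Agent.H210R2.PinD

set_option autoImplicit false

namespace Pool.Agent.Results.MP_c4588b_lc.Threshold

/-- The real-valued instance `a` (with the periods `a i`) is schedulable: there is a map `S` from
the integers to the tasks such that every window of `⌈l * a i⌉` consecutive integers contains at
least `l` times assigned to the task `i`, for all `i` and `l`. -/
def Schedulable {k : ℕ} (a : Fin k → ℝ) : Prop :=
  ∃ S : ℤ → Fin k, ∀ (i : Fin k) (l : ℕ) (m : ℤ),
    l ≤ ((Finset.Ico m (m + ⌈(l : ℝ) * a i⌉)).filter (fun t => S t = i)).card

/-- Every real-valued instance whose density is at most `max (2/3, 1/2 + 1/(2 a_j))`, where `a_j`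
is one of the periods (best: the smallest one), is schedulable. So the density `2/3` suffices for
all real-valued instances, and the density `5/6` suffices if the smallest period is at most
`3/2`. -/
theorem result :
    ∀ k : ℕ, 0 < k → ∀ a : Fin k → ℝ, (∀ i, 1 ≤ a i) → ∀ j : Fin k,
      (∑ i, 1 / a i) ≤ max (2 / 3) (1 / 2 + 1 / (2 * a j)) → Schedulable a := by
  intro k hk a ha j hD
  rcases le_max_iff.mp hD with h | h
  · exact Pool.Agent.H210R2.Pin.two_thirds hk a ha h
  · exact Pool.Agent.H210R2.Pin.one_task hk a ha j h

end Pool.Agent.Results.MP_c4588b_lc.Threshold
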